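import Mathlib
import Pool.Agent.Lib.Pb0fea6.Count

set_option autoImplicit false

open Metric Set

namespace Pool.Agent.Results.MP_b0fea6_co.TouchingStrings

open Pool.Agent.Lib.Pb0fea6

/-- The Euclidean plane. -/
abbrev Plane : Type := EuclideanSpace ℝ (Fin 2)

/-- A string: a subset of the plane homeomorphic to `[0,1]`. -/
def IsString (a : Set Plane) : Prop := Nonempty (a ≃ₜ unitInterval)

/-- `U` is a side of `a` at `p` in the disc of radius `r` about `p`: a connected component of the
disc minus `a` that has `p` in its closure. -/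
def IsSide (a : Set Plane) (p : Plane) (r : ℝ) (U : Set Plane) : Prop :=
  (∃ x ∈ ball p r \ a, U = connectedComponentIn (ball p r \ a) x) ∧ p ∈ closure U

/-- In the disc of radius `r` about `p`, the string `b` passes from one side of `a` to the other
at `p`: the part of `b` in the disc which contains `p` (the connected component) meets two
different sides of `a` at `p`. -/
def Passes (a b : Set Plane) (p : Plane) (r : ℝ) : Prop :=
  ∃ U V : Set Plane, IsSide a p r U ∧ IsSide a p r V ∧ U ≠ V ∧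
    (connectedComponentIn (b ∩ ball p r) p ∩ U).Nonempty ∧
    (connectedComponentIn (b ∩ ball p r) p ∩ V).Nonempty

/-- `a` and `b` cross at `p`: `p` is a common point and in every sufficiently small disc around
`p` the string `b` passes from one side of `a` to the other at `p`. -/
def CrossAt (a b : Set Plane) (p : Plane) : Prop :=
  p ∈ a ∩ b ∧ ∃ R : ℝ, 0 < R ∧ ∀ r : ℝ, 0 < r → r < R → Passes a b p r

/-- The intersection graph of a family of sets. -/
def intersectionGraph (S : Set (Set Plane)) : SimpleGraph S where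
  Adj a b := a ≠ b ∧ ((a : Set Plane) ∩ (b : Set Plane)).Nonempty
  symm := ⟨fun _ _ h => ⟨h.1.symm, by rw [Set.inter_comm]; exact h.2⟩⟩
  loopless := ⟨fun _ h => h.1 rfl⟩

/-- Rerouting: if the middle part of a curve `g` lies in a disc, and its ends can be joined in the
disc off `a`, then `g` can be changed slightly so as to miss `a`. -/
theorem reroute (a : Set Plane) (ha : IsClosed a) (g : II → Plane) (hg : Continuous g)
    (p : Plane) (r : ℝ) (t₁ t₀ t₂ : II) (h10 : t₁ < t₀) (h02 : t₀ < t₂)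
    (hball : ∀ t, t₁ ≤ t → t ≤ t₂ → g t ∈ ball p r)
    (hoff : ∀ t, t ≠ t₀ → g t ∉ a)
    (hconn : g t₂ ∈ connectedComponentIn (ball p r \ a) (g t₁)) :
    ∃ β : II → Plane, Continuous β ∧ (∀ t, dist (β t) (g t) < 2 * r) ∧ ∀ t, β t ∉ a := by
  have hopen : IsOpen (ball p r \ a) := isOpen_ball.sdiff ha
  have hx : g t₁ ∈ ball p r \ a :=
    ⟨hball t₁ le_rfl (h10.trans h02).le, hoff t₁ h10.ne⟩
  have hco : IsOpen (connectedComponentIn (ball p r \ a) (g t₁)) := hopen.connectedComponentIn
  have hcc : IsConnected (connectedComponentIn (ball p r \ a) (g t₁)) :=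
    isConnected_connectedComponentIn_iff.2 hx
  have hpc : IsPathConnected (connectedComponentIn (ball p r \ a) (g t₁)) :=
    (hco.isConnected_iff_isPathConnected).1 hcc
  obtain ⟨c, hc⟩ := hpc.joinedIn (g t₁) (mem_connectedComponentIn hx) (g t₂) hconn
  have hcm : ∀ s, c s ∈ ball p r \ a := fun s => connectedComponentIn_subset _ _ (hc s)
  have h12 : (0 : ℝ) < (t₂ : ℝ) - t₁ := sub_pos.2 (h10.trans h02)
  have hr : 0 < r := by
    have := hx.1
    exact lt_of_le_of_lt dist_nonneg (mem_ball.1 this)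
  let u : II → ℝ := fun t => ((t : ℝ) - t₁) / ((t₂ : ℝ) - t₁)
  have hu : Continuous u := by
    have : Continuous fun t : II => (t : ℝ) := continuous_subtype_val
    fun_prop
  have hext : ∀ s : ℝ, c.extend s ∈ ball p r \ a := by
    intro s
    have h1 : c.extend s ∈ Set.range c := by
      rw [← Path.extend_range]
      exact ⟨s, rfl⟩
    obtain ⟨s', hs'⟩ := h1
    rw [← hs']
    exact hcm s'
  refine ⟨fun t => if t ≤ t₁ then g t else if t ≤ t₂ then c.extend (u t) else g t, ?_, ?_, ?_⟩
  · refine Continuous.if_le hg ?_ continuous_id continuous_const ?_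
    · refine Continuous.if_le (c.continuous_extend.comp hu) hg continuous_id continuous_const ?_
      intro t ht
      have ht' : t = t₂ := ht
      subst ht'
      have : u t = 1 := div_self h12.ne'
      simp [this]
    · intro t ht
      have ht' : t = t₁ := ht
      subst ht'
      have : u t = 0 := by simp [u]
      rw [if_pos (h10.trans h02).le, this]
      simp
  · intro t
    show dist (if t ≤ t₁ then g t else if t ≤ t₂ then c.extend (u t) else g t) (g t) < 2 * r
    by_cases h1 : t ≤ t₁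
    · rw [if_pos h1, dist_self]; linarith
    · rw [if_neg h1]
      by_cases h2 : t ≤ t₂
      · rw [if_pos h2]
        have h3 := mem_ball.1 (hext (u t)).1
        have h4 := mem_ball.1 (hball t (not_le.1 h1).le h2)
        calc dist (c.extend (u t)) (g t) ≤ dist (c.extend (u t)) p + dist (g t) p :=
              dist_triangle_right _ _ _
          _ < 2 * r := by linarith
      · rw [if_neg h2, dist_self]; linarith
  · intro t
    show (if t ≤ t₁ then g t else if t ≤ t₂ then c.extend (u t) else g t) ∉ a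
    by_cases h1 : t ≤ t₁
    · rw [if_pos h1]; exact hoff t (lt_of_le_of_lt h1 h10).ne
    · rw [if_neg h1]
      by_cases h2 : t ≤ t₂
      · rw [if_pos h2]; exact (hext (u t)).2
      · rw [if_neg h2]; exact hoff t (h02.trans (not_le.1 h2)).ne'

/-- The heart of the matter: two strings with at most one common point that do not cross can be
pulled apart by arbitrarily small moves. -/
theorem pull_apart (a b : Set Plane) (ha : IsClosed a) (g : II → Plane) (hg : Continuous g)
    (hinj : Function.Injective g) (hb : Set.range g = b) (hab : (a ∩ b).Subsingleton)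
    (hnc : ∀ p, ¬ CrossAt a b p) (ε : ℝ) (hε : 0 < ε) :
    ∃ β : II → Plane, Continuous β ∧ (∀ t, dist (β t) (g t) < ε) ∧ ∀ t, β t ∉ a := by
  by_cases hne : (a ∩ b).Nonempty
  swap
  · refine ⟨g, hg, fun t => by rw [dist_self]; exact hε, fun t ht => hne ⟨g t, ht, ?_⟩⟩
    rw [← hb]; exact ⟨t, rfl⟩
  obtain ⟨p, hpa, hpb⟩ := hne
  have hpb' := hpb
  rw [← hb] at hpb'
  obtain ⟨t₀, ht₀⟩ := hpb'
  have hoff : ∀ t, t ≠ t₀ → g t ∉ a := by
    intro t ht hta
    have : g t = p := hab ⟨hta, by rw [← hb]; exact ⟨t, rfl⟩⟩ ⟨hpa, hpb⟩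
    exact ht (hinj (this.trans ht₀.symm))
  -- a neighbourhood of `t₀` that `g` maps to a small disc
  have hnbhd : ∀ r : ℝ, 0 < r → ∃ δ : ℝ, 0 < δ ∧ ∀ t : II, |(t : ℝ) - t₀| < δ →
      g t ∈ ball p r := by
    intro r hr
    obtain ⟨δ, hδ, h⟩ := Metric.continuous_iff.1 hg t₀ r hr
    refine ⟨δ, hδ, fun t ht => ?_⟩
    have := h t (by rw [Subtype.dist_eq, Real.dist_eq]; exact ht)
    rwa [ht₀] at this
  rcases eq_or_lt_of_le (unitInterval.nonneg' (t := t₀)) with h0 | h0
  · -- `p` is the start of `b`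
    obtain ⟨δ, hδ, hball⟩ := hnbhd (ε / 2) (by linarith)
    have hm : (0 : ℝ) < min (δ / 2) 1 := lt_min (by linarith) one_pos
    let d : II := ⟨min (δ / 2) 1, hm.le, min_le_right _ _⟩
    have hd0 : t₀ < d := by rw [← h0]; exact hm
    refine ⟨fun t => g (max t d), hg.comp (continuous_id.max continuous_const), fun t => ?_,
      fun t => hoff _ (lt_of_lt_of_le hd0 (le_max_right _ _)).ne'⟩
    rcases le_total d t with h | h
    · show dist (g (max t d)) (g t) < ε
      rw [max_eq_left h, dist_self]; exact hε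
    · show dist (g (max t d)) (g t) < ε
      rw [max_eq_right h]
      have e0 : (t₀ : ℝ) = 0 := by rw [← h0]; rfl
      have hdd : (d : ℝ) < δ := lt_of_le_of_lt (min_le_left _ _) (by linarith)
      have h1 : g d ∈ ball p (ε / 2) := hball d (by
        rw [e0, sub_zero, abs_of_nonneg d.2.1]; exact hdd)
      have h2 : g t ∈ ball p (ε / 2) := hball t (by
        rw [e0, sub_zero, abs_of_nonneg t.2.1]; exact lt_of_le_of_lt h hdd)
      calc dist (g d) (g t) ≤ dist (g d) p + dist (g t) p := dist_triangle_right _ _ _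
        _ < ε := by linarith [mem_ball.1 h1, mem_ball.1 h2]
  rcases eq_or_lt_of_le (unitInterval.le_one' (t := t₀)) with h1 | h1
  · -- `p` is the end of `b`
    obtain ⟨δ, hδ, hball⟩ := hnbhd (ε / 2) (by linarith)
    have hm : (0 : ℝ) < min (δ / 2) 1 := lt_min (by linarith) one_pos
    let d : II := ⟨1 - min (δ / 2) 1, by linarith [min_le_right (δ / 2) 1], by linarith⟩
    have hd0 : d < t₀ := by
      rw [h1, ← Subtype.coe_lt_coe]
      show 1 - min (δ / 2) 1 < (1 : ℝ)
      linarith
    refine ⟨fun t => g (min t d), hg.comp (continuous_id.min continuous_const), fun t => ?_,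
      fun t => hoff _ (lt_of_le_of_lt (min_le_right _ _) hd0).ne⟩
    rcases le_total t d with h | h
    · show dist (g (min t d)) (g t) < ε
      rw [min_eq_left h, dist_self]; exact hε
    · show dist (g (min t d)) (g t) < ε
      rw [min_eq_right h]
      have e0 : (t₀ : ℝ) = 1 := by rw [h1]; rfl
      have hdd : 1 - δ < (d : ℝ) := by
        show 1 - δ < 1 - min (δ / 2) 1
        linarith [min_le_left (δ / 2) 1]
      have h1 : g d ∈ ball p (ε / 2) := hball d (by
        rw [e0, abs_sub_comm, abs_of_nonneg (by linarith [d.2.2])]; linarith)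
      have h2 : g t ∈ ball p (ε / 2) := hball t (by
        have : (d : ℝ) ≤ t := h
        rw [e0, abs_sub_comm, abs_of_nonneg (by linarith [t.2.2])]; linarith)
      calc dist (g d) (g t) ≤ dist (g d) p + dist (g t) p := dist_triangle_right _ _ _
        _ < ε := by linarith [mem_ball.1 h1, mem_ball.1 h2]
  -- `p` is an interior point of `b`
  obtain ⟨r, hr, hrε, hpass⟩ : ∃ r : ℝ, 0 < r ∧ r < ε / 2 ∧ ¬ Passes a b p r := by
    by_contra hcon
    push Not at hcon
    exact hnc p ⟨⟨hpa, hpb⟩, ε / 2, by linarith, fun r h1 h2 => hcon r h1 h2⟩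
  obtain ⟨δ, hδ, hball⟩ := hnbhd r hr
  have h0' : (0 : ℝ) < t₀ := h0
  have h1' : (t₀ : ℝ) < 1 := h1
  obtain ⟨η, hη0, hηδ, hη1, hη2⟩ : ∃ η : ℝ, 0 < η ∧ η < δ ∧ η < t₀ ∧ η < 1 - t₀ := by
    refine ⟨min (δ / 2) (min (t₀ / 2) ((1 - t₀) / 2)), ?_, ?_, ?_, ?_⟩
    · exact lt_min (by linarith) (lt_min (by linarith) (by linarith))
    · exact lt_of_le_of_lt (min_le_left _ _) (by linarith)
    · exact lt_of_le_of_lt ((min_le_right _ _).trans (min_le_left _ _)) (by linarith)
    · exact lt_of_le_of_lt ((min_le_right _ _).trans (min_le_right _ _)) (by linarith)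
  let t₁ : II := ⟨t₀ - η, by linarith, by linarith⟩
  let t₂ : II := ⟨t₀ + η, by linarith, by linarith⟩
  have h10 : t₁ < t₀ := by
    rw [← Subtype.coe_lt_coe]; show (t₀ : ℝ) - η < t₀; linarith
  have h02 : t₀ < t₂ := by
    rw [← Subtype.coe_lt_coe]; show (t₀ : ℝ) < t₀ + η; linarith
  have hin : ∀ t, t₁ ≤ t → t ≤ t₂ → g t ∈ ball p r := by
    intro t ha' hb'
    refine hball t ?_
    have h3 : (t₀ : ℝ) - η ≤ t := ha'
    have h4 : (t : ℝ) ≤ t₀ + η := hb'
    rw [abs_lt]
    constructor <;> linarith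
  -- the part of `b` between `t₁` and `t₂` lies in the component of `b ∩ ball p r` at `p`
  have hB : ∀ t, t₁ ≤ t → t ≤ t₂ → g t ∈ connectedComponentIn (b ∩ ball p r) p := by
    intro t ha' hb'
    have hpre : IsPreconnected (g '' Icc t₁ t₂) := isPreconnected_Icc.image g hg.continuousOn
    have hsub : g '' Icc t₁ t₂ ⊆ b ∩ ball p r := by
      rintro _ ⟨s, hs, rfl⟩
      exact ⟨by rw [← hb]; exact ⟨s, rfl⟩, hin s hs.1 hs.2⟩
    exact hpre.subset_connectedComponentIn ⟨t₀, ⟨h10.le, h02.le⟩, ht₀⟩ hsub ⟨t, ⟨ha', hb'⟩, rfl⟩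
  have hside : ∀ (I : Set II) (s : II), IsPreconnected I → s ∈ I → t₀ ∉ I → t₀ ∈ closure I →
      (∀ t ∈ I, t₁ ≤ t ∧ t ≤ t₂) →
      IsSide a p r (connectedComponentIn (ball p r \ a) (g s)) := by
    intro I s hI hs hnot hcl hsub
    have hx : g s ∈ ball p r \ a :=
      ⟨hin s (hsub s hs).1 (hsub s hs).2, hoff s fun h => hnot (h ▸ hs)⟩
    refine ⟨⟨g s, hx, rfl⟩, ?_⟩
    have hpre : IsPreconnected (g '' I) := hI.image g hg.continuousOn
    have hsub' : g '' I ⊆ ball p r \ a := by
      rintro _ ⟨t, ht, rfl⟩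
      exact ⟨hin t (hsub t ht).1 (hsub t ht).2, hoff t fun h => hnot (h ▸ ht)⟩
    have h3 : g '' I ⊆ connectedComponentIn (ball p r \ a) (g s) :=
      hpre.subset_connectedComponentIn ⟨s, hs, rfl⟩ hsub'
    refine closure_mono h3 ?_
    rw [← ht₀]
    exact image_closure_subset_closure_image hg ⟨t₀, hcl, rfl⟩
  have hU : IsSide a p r (connectedComponentIn (ball p r \ a) (g t₁)) := by
    refine hside (Ico t₁ t₀) t₁ isPreconnected_Ico ⟨le_rfl, h10⟩ (fun h => lt_irrefl _ h.2) ?_ ?_
    · rw [closure_Ico h10.ne]; exact ⟨h10.le, le_rfl⟩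
    · intro t ht; exact ⟨ht.1, ht.2.le.trans h02.le⟩
  have hV : IsSide a p r (connectedComponentIn (ball p r \ a) (g t₂)) := by
    refine hside (Ioc t₀ t₂) t₂ isPreconnected_Ioc ⟨h02, le_rfl⟩ (fun h => lt_irrefl _ h.1) ?_ ?_
    · rw [closure_Ioc h02.ne]; exact ⟨le_rfl, h02.le⟩
    · intro t ht; exact ⟨h10.le.trans ht.1.le, ht.2⟩
  have hx1 : g t₁ ∈ ball p r \ a := ⟨hin t₁ le_rfl (h10.trans h02).le, hoff t₁ h10.ne⟩
  have hx2 : g t₂ ∈ ball p r \ a := ⟨hin t₂ (h10.trans h02).le le_rfl, hoff t₂ h02.ne'⟩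
  have hUV : connectedComponentIn (ball p r \ a) (g t₁) =
      connectedComponentIn (ball p r \ a) (g t₂) := by
    by_contra hne'
    exact hpass ⟨_, _, hU, hV, hne',
      ⟨g t₁, hB t₁ le_rfl (h10.trans h02).le, mem_connectedComponentIn hx1⟩,
      ⟨g t₂, hB t₂ (h10.trans h02).le le_rfl, mem_connectedComponentIn hx2⟩⟩
  obtain ⟨β, h1β, h2β, h3β⟩ := reroute a ha g hg p r t₁ t₀ t₂ h10 h02 hin hoff (by
    rw [hUV]; exact mem_connectedComponentIn hx2)
  exact ⟨β, h1β, fun t => (h2β t).trans (by linarith), h3β⟩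

open Classical in
/-- Greedy colouring from lists, for the curves of the library. -/
theorem list_colouring {ι : Type} [Fintype ι] (γ : ι → II → ℂ) (hγ : Fam γ) (k : ℕ)
    (hk : ∀ p, (load γ p).card ≤ k) (L : ι → Finset ℕ) (hL : ∀ i, k + (cc + 1) ≤ (L i).card) :
    ∀ T : Finset ι, ∃ f : ι → ℕ, (∀ i, f i ∈ L i) ∧
      ∀ i ∈ T, ∀ j ∈ T, i ≠ j → Meet γ i j → f i ≠ f j := by
  intro T
  induction T using Finset.strongInduction with
  | _ T ih =>
  rcases T.eq_empty_or_nonempty with rfl | hT
  · have hne : ∀ i, ∃ x, x ∈ L i := fun i => Finset.card_pos.1 (by have := hL i; omega)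
    choose f hf using hne
    exact ⟨f, hf, fun i hi => absurd hi (Finset.notMem_empty _)⟩
  have : Nonempty T := ⟨⟨hT.choose, hT.choose_spec⟩⟩
  have hload : ∀ p, (load (fun i : T => γ i.1) p).card ≤ k := by
    intro p
    refine le_trans ?_ (hk p)
    refine Finset.card_le_card_of_injOn (fun i => i.1) ?_ (fun i _ j _ h => Subtype.ext h)
    intro i hi
    exact Finset.mem_filter.2 ⟨Finset.mem_univ _, (Finset.mem_filter.1 hi).2⟩
  obtain ⟨⟨i, hi⟩, hdeg⟩ := exists_small (fun i : T => γ i.1)
    (hγ.restrict _ Subtype.val_injective) k hload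
  obtain ⟨f, hfL, hf⟩ := ih (T.erase i) (Finset.erase_ssubset hi)
  let B : Finset ι := T.filter fun j => i ≠ j ∧ Meet γ i j
  have hB : B.card ≤ k + cc := by
    refine le_trans ?_ hdeg
    refine Finset.card_le_card_of_surjOn (fun j => j.1) ?_
    intro j hj
    obtain ⟨h1, h2, h3⟩ := Finset.mem_filter.1 hj
    refine ⟨⟨j, h1⟩, ?_, rfl⟩
    rw [Finset.mem_coe]
    simp only [Finset.mem_filter, Finset.mem_univ, true_and]
    exact ⟨fun h => h2 (congrArg Subtype.val h), h3⟩
  obtain ⟨c, hcL, hc⟩ : ∃ c ∈ L i, c ∉ B.image f := by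
    by_contra hcon
    push Not at hcon
    have h2 := Finset.card_le_card (show L i ⊆ B.image f from hcon)
    have h3 := Finset.card_image_le (s := B) (f := f)
    have h4 := hL i
    omega
  have hsymm : ∀ x y, Meet γ x y → Meet γ y x := fun x y h => by
    unfold Meet at h ⊢
    rwa [Set.inter_comm]
  refine ⟨Function.update f i c, fun a => ?_, fun a ha b hb hab hm => ?_⟩
  · by_cases hai : a = i
    · subst hai
      rw [Function.update_self]
      exact hcL
    · rw [Function.update_of_ne hai]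
      exact hfL a
  by_cases hai : a = i
  · subst hai
    rw [Function.update_self, Function.update_of_ne hab.symm]
    intro h
    exact hc (Finset.mem_image.2 ⟨b, Finset.mem_filter.2 ⟨hb, hab, hm⟩, h.symm⟩)
  · by_cases hbi : b = i
    · subst hbi
      rw [Function.update_self, Function.update_of_ne hab]
      intro h
      exact hc (Finset.mem_image.2 ⟨a, Finset.mem_filter.2 ⟨ha, hab.symm, hsymm _ _ hm⟩, h⟩)
    · rw [Function.update_of_ne hai, Function.update_of_ne hbi]
      exact hf a (Finset.mem_erase.2 ⟨hai, ha⟩) b (Finset.mem_erase.2 ⟨hbi, hb⟩) hab hm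

/-- There is a constant `c` (independent of `k`) such that, for every `k ≥ 1`, every finite family
`S` of pairwise non-crossing strings in the plane such that any two strings have at most one point
in common and every point belongs to at most `k` strings is `(k + c)`-colorable, even from
arbitrary lists of `k + c` colours; `c = 251658496` will do. -/
theorem result : ∃ c : ℕ, c ≤ 251658496 ∧ ∀ k : ℕ, 1 ≤ k → ∀ S : Set (Set Plane), S.Finite →
    (∀ a ∈ S, IsString a) →
    (∀ a ∈ S, ∀ b ∈ S, a ≠ b → ∀ p : Plane, ¬ CrossAt a b p) →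
    (∀ a ∈ S, ∀ b ∈ S, a ≠ b → (a ∩ b).Subsingleton) →
    (∀ p : Plane, {a ∈ S | p ∈ a}.encard ≤ k) →
    (intersectionGraph S).Colorable (k + c) ∧
      ∀ L : S → Finset ℕ, (∀ a, k + c ≤ (L a).card) →
        ∃ f : (intersectionGraph S).Coloring ℕ, ∀ a, f a ∈ L a := by
  refine ⟨cc + 1, by norm_num [cc], fun k _ S hfin hstr hnc hmeet hload => ?_⟩
  classical
  have : Fintype S := hfin.fintype
  let e : Plane ≃ₗᵢ[ℝ] ℂ := Complex.orthonormalBasisOneI.repr.symm
  -- parametrisations
  let h : ∀ a : S, (a : Set Plane) ≃ₜ unitInterval := fun a => (hstr a a.2).some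
  let γ : S → II → Plane := fun a t => ((h a).symm t : Plane)
  have hγc : ∀ a, Continuous (γ a) := fun a => continuous_subtype_val.comp (h a).symm.continuous
  have hγi : ∀ a, Function.Injective (γ a) := fun a =>
    Subtype.val_injective.comp (h a).symm.injective
  have hγr : ∀ a : S, Set.range (γ a) = (a : Set Plane) := by
    intro a
    ext p
    constructor
    · rintro ⟨t, rfl⟩
      exact ((h a).symm t).2
    · intro hp
      exact ⟨h a ⟨p, hp⟩, by simp [γ]⟩
  have hclosed : ∀ a : S, IsClosed (a : Set Plane) := by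
    intro a
    rw [← hγr a]
    exact (isCompact_range (hγc a)).isClosed
  let g : S → II → ℂ := fun a t => e (γ a t)
  have hrange : ∀ (a : S) (p : Plane), e p ∈ Set.range (g a) ↔ p ∈ (a : Set Plane) := by
    intro a p
    rw [← hγr a]
    constructor
    · rintro ⟨t, ht⟩
      exact ⟨t, e.injective ht⟩
    · rintro ⟨t, rfl⟩
      exact ⟨t, rfl⟩
  have hsurj : ∀ z : ℂ, ∃ p, e p = z := e.surjective
  have hval : ∀ a b : S, a ≠ b → (a : Set Plane) ≠ (b : Set Plane) := fun a b hab h' =>
    hab (Subtype.ext h')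
  have hg : Fam g := by
    refine ⟨fun a => e.continuous.comp (hγc a), fun a => e.injective.comp (hγi a), ?_, ?_⟩
    · intro a b hab z hz w hw
      obtain ⟨p, rfl⟩ := hsurj z
      obtain ⟨q, rfl⟩ := hsurj w
      rw [hmeet a a.2 b b.2 (hval a b hab) ⟨(hrange a p).1 hz.1, (hrange b p).1 hz.2⟩
        ⟨(hrange a q).1 hw.1, (hrange b q).1 hw.2⟩]
    · intro a b hab ε hε
      obtain ⟨β, hβ, h1, h2⟩ := pull_apart a b (hclosed a) (γ b) (hγc b) (hγi b) (hγr b)
        (hmeet a a.2 b b.2 (hval a b hab)) (hnc a a.2 b b.2 (hval a b hab)) ε hε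
      refine ⟨g a, fun t => e (β t), e.continuous.comp (hγc a), e.continuous.comp hβ,
        fun t => by rw [sub_self, norm_zero]; exact hε, fun t => ?_, fun s t hst => ?_⟩
      · rw [← dist_eq_norm]
        show dist (e (β t)) (e (γ b t)) < ε
        rw [e.dist_map]
        exact h1 t
      · have h3 : γ a s = β t := e.injective hst
        apply h2 t
        rw [← h3, ← hγr a]
        exact ⟨s, rfl⟩
  have hk : ∀ z, (load g z).card ≤ k := by
    intro z
    obtain ⟨p, rfl⟩ := hsurj z
    have h1 := hload p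
    have h2 : ((load g (e p)).image (fun a : S => (a : Set Plane)) : Set (Set Plane)) ⊆
        {a ∈ S | p ∈ a} := by
      intro a ha
      rw [Finset.coe_image] at ha
      obtain ⟨b, hb, rfl⟩ := ha
      refine ⟨b.2, ?_⟩
      have := (Finset.mem_filter.1 (Finset.mem_coe.1 hb)).2
      exact (hrange b p).1 this
    have h3 := (Set.encard_le_encard h2).trans h1
    rw [Set.encard_coe_eq_coe_finsetCard,
      Finset.card_image_of_injective _ Subtype.val_injective] at h3
    exact_mod_cast h3
  have hlist : ∀ L : S → Finset ℕ, (∀ a, k + (cc + 1) ≤ (L a).card) →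
      ∃ f : (intersectionGraph S).Coloring ℕ, ∀ a, f a ∈ L a := by
    intro L hL
    obtain ⟨f, hfL, hf⟩ := list_colouring g hg k hk L hL Finset.univ
    refine ⟨SimpleGraph.Coloring.mk f fun {a b} hab => ?_, hfL⟩
    obtain ⟨hne, p, hp1, hp2⟩ := hab
    exact hf a (Finset.mem_univ _) b (Finset.mem_univ _) hne
      ⟨e p, (hrange a p).2 hp1, (hrange b p).2 hp2⟩
  refine ⟨?_, hlist⟩
  obtain ⟨f, hf⟩ := colouring g hg k hk Finset.univ
  refine ⟨SimpleGraph.Coloring.mk f fun {a b} hab => ?_⟩
  obtain ⟨hne, p, hp1, hp2⟩ := hab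
  exact hf a (Finset.mem_univ _) b (Finset.mem_univ _) hne
    ⟨e p, (hrange a p).2 hp1, (hrange b p).2 hp2⟩

end Pool.Agent.Results.MP_b0fea6_co.TouchingStrings
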